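import Pool.Agent.MP_caa27d_co.H.Tests

/-! Two elements of frequency at least `0.384`. -/

set_option autoImplicit false

open Finset Real

namespace Pool.Agent.MP_caa27d_co.H

open Pool.Agent.MP_caa27d_co.E

variable {F : Finset (Finset ℕ)} {n y : ℕ}

/-- number of members containing `y` -/
def dg (F : Finset (Finset ℕ)) (y : ℕ) : ℕ := (F.filter fun A => y ∈ A).card

/-- members that stay members when `n` is added -/
def dbl (n : ℕ) (F : Finset (Finset ℕ)) : Finset (Finset ℕ) :=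
  F.filter fun D => n ∉ D ∧ insert n D ∈ F

lemma ins_tr (D : Finset ℕ) : insert n D ∩ range n = D ∩ range n :=
  insert_inter_of_notMem notMem_range_self

lemma split (hF : ∀ A ∈ F, A ⊆ range (n + 1)) : F.card = (pj n F).card + (dbl n F).card := by
  have hn : ∀ A : Finset ℕ, n ∉ A ∩ range n := fun A h => notMem_range_self (mem_inter.1 h).2
  have h1 : pj n F = (F \ dbl n F).image fun D => D ∩ range n := by
    refine subset_antisymm (fun C hC => ?_) (image_subset_image sdiff_subset)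
    obtain ⟨A, hA, rfl⟩ := mem_image.1 hC
    by_cases e : A ∈ dbl n F
    · exact mem_image.2 ⟨insert n A, mem_sdiff.2 ⟨(mem_filter.1 e).2.2, fun h =>
        (mem_filter.1 h).2.1 (mem_insert_self _ _)⟩, ins_tr A⟩
    · exact mem_image.2 ⟨A, mem_sdiff.2 ⟨hA, e⟩, rfl⟩
  have key : ∀ A ∈ F \ dbl n F, ∀ B ∈ F, A = A ∩ range n → B ≠ insert n (A ∩ range n) :=
    fun A hA B hB e1 e2 => (mem_sdiff.1 hA).2 (mem_filter.2 ⟨(mem_sdiff.1 hA).1,
      by rw [e1]; exact hn A, by rw [e1, ← e2]; exact hB⟩)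
  rw [h1, card_image_of_injOn, card_sdiff_add_card_eq_card (show dbl n F ⊆ F from filter_subset _ _)]
  intro A hA B hB e
  have hA' : A ∈ F \ dbl n F := hA
  have hB' : B ∈ F \ dbl n F := hB
  have e' : A ∩ range n = B ∩ range n := e
  rcases two_cases (hF A (mem_sdiff.1 hA').1) with a | a <;>
    rcases two_cases (hF B (mem_sdiff.1 hB').1) with b | b
  · rw [a, b, e']
  · exact absurd (by rw [e']; exact b) (key A hA' B (mem_sdiff.1 hB').1 a)
  · exact absurd (by rw [← e']; exact a) (key B hB' A (mem_sdiff.1 hA').1 b)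
  · rw [a, b, e']

lemma dg_split (hF : ∀ A ∈ F, A ⊆ range (n + 1)) (hy : y < n) :
    dg F y = dg (pj n F) y + dg (dbl n F) y := by
  rw [dg, split (n := n) fun A hA => hF A (mem_filter.1 hA).1]
  congr 1
  · rw [dg, pj, pj, filter_image]
    congr 2
    ext A
    simp [hy]
  · rw [dg, dbl, dbl]
    congr 1
    ext A
    simp only [mem_filter, mem_insert]
    tauto

lemma dbl_sub (hF : ∀ A ∈ F, A ⊆ range (n + 1)) : dbl n F ⊆ pj n F := fun A hA => by
  obtain ⟨h1, h2, -⟩ := mem_filter.1 hA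
  rcases two_cases (hF A h1) with a | a
  · exact mem_image.2 ⟨A, h1, a.symm⟩
  · exact absurd (a ▸ mem_insert_self _ _) h2

lemma ineq (hc : ∀ A ∈ F, ∀ B ∈ F, A ∪ B ∈ F) (hF : ∀ A ∈ F, A ⊆ range (n + 1))
    (hne : F.Nonempty) (hr : ∀ j < n, 1000 * dg F j < 384 * F.card) (hy : y < n) :
    0 ≤ log ((pj n F).card / F.card + dg (pj n F) y / F.card) -
      (2 * (dg F y / F.card) - (dg F y / F.card : ℝ) ^ 2) * log 2 +
      2 * log 2 * (1 - (pj n F).card / F.card) + 6 / 25 * (63 / 1000) := by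
  have h0 : (0 : ℝ) < F.card := by exact_mod_cast hne.card_pos
  have g0 : (0 : ℝ) < (pj n F).card := by exact_mod_cast (hne.image _).card_pos
  have l2 := log_pos one_lt_two
  let R := pj n F ∪ ((pj n F).filter fun A => y ∈ A).image (insert n)
  have hG : ∀ A ∈ F, ∀ B ∈ F, (A ∪ B) ∩ range n ∈ pj n F := fun A hA B hB =>
    mem_image_of_mem _ (hc A hA B hB)
  have ii : ∀ C : Finset ℕ, C ∩ range n ∩ range n = C ∩ range n := fun C => by
    rw [inter_assoc, inter_self]
  have key : ∀ j, ∃ κ, j ∈ range n → 0 ≤ cost F n j κ := fun j => by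
    by_cases e : j ∈ range n
    · obtain ⟨κ, h⟩ := cost_nonneg (n := n) (hr j (mem_range.1 e))
      exact ⟨κ, fun _ => h⟩
    · exact ⟨fun _ _ => 0, fun h => absurd h e⟩
  choose κ hκ using key
  have h1 := (sum_nonneg fun j hj => hκ j hj).trans (total' (R := R) hc hF
    (fun A hA B hB => ⟨_, mem_union_left _ (hG A hA B hB), ii _⟩) κ)
  have hR : log (R.card : ℝ) ≤ log ((pj n F).card + dg (pj n F) y) := by
    refine log_le_log (g0.trans_le (by exact_mod_cast card_le_card subset_union_left)) ?_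
    exact_mod_cast (card_union_le _ _).trans (Nat.add_le_add_left card_image_le _)
  have h2 : ∀ B ∈ F, ∀ A ∈ F, log (R.card : ℝ) - log ((cl R (range n) (A ∪ B)).card : ℝ) ≤
      log ((pj n F).card + dg (pj n F) y) - log 2 + log 2 * (ind y B * ind y A) := by
    intro B hB A hA
    by_cases e : y ∈ A ∪ B
    · have a1 : ind y B * ind y A = 0 := by
        rcases mem_union.1 e with e | e <;> simp [ind, e]
      have a2 : 1 < (cl R (range n) (A ∪ B)).card := one_lt_card.2 ⟨(A ∪ B) ∩ range n,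
        mem_filter.2 ⟨mem_union_left _ (hG A hA B hB), ii _⟩, insert n ((A ∪ B) ∩ range n),
        mem_filter.2 ⟨mem_union_right _ (mem_image_of_mem _ (mem_filter.2 ⟨hG A hA B hB,
          mem_inter.2 ⟨e, mem_range.2 hy⟩⟩)), (ins_tr _).trans (ii _)⟩, fun h =>
          notMem_range_self (mem_inter.1 (h ▸ mem_insert_self _ _ : n ∈ (A ∪ B) ∩ range n)).2⟩
      have a3 : log 2 ≤ log ((cl R (range n) (A ∪ B)).card : ℝ) :=
        log_le_log two_pos (by exact_mod_cast a2)
      rw [a1]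
      linarith
    · rw [show ind y A = 1 from if_neg fun x => e (mem_union_left _ x),
        show ind y B = 1 from if_neg fun x => e (mem_union_right _ x)]
      linarith [log_natCast_nonneg (cl R (range n) (A ∪ B)).card]
  have h3 := sum_le_sum fun B hB => sum_le_sum (h2 B hB)
  have h4 : ((F.filter fun D => y ∉ D).card : ℝ) = F.card - dg F y := by
    have : (dg F y : ℝ) + (F.filter fun D => y ∉ D).card = F.card := by
      exact_mod_cast card_filter_add_card_filter_not (s := F) fun D => y ∈ D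
    linarith
  have h5 := h1.trans (add_le_add_left (add_le_add_left (sub_le_sub_right h3 _) _) _)
  simp only [sum_add_distrib, sum_const, nsmul_eq_mul, ← mul_sum, ← sum_mul, sum_ind, h4,
    L_pj hF] at h5
  have g1 : (0 : ℝ) ≤ dg (pj n F) y := Nat.cast_nonneg _
  rw [← add_div, log_div (by positivity) h0.ne']
  refine le_of_mul_le_mul_left (le_of_le_of_eq (by simpa using h5) ?_) (mul_pos h0 h0)
  field_simp
  ring

lemma numG {a g f : ℝ} (a1 : 7 / 8 ≤ a) (a2 : a ≤ 1) (g1 : 384 / 1000 * a ≤ g) (g2 : g ≤ f)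
    (f1 : f ≤ 384 / 1000) :
    log (a + g) - (2 * f - f ^ 2) * log 2 + 2 * log 2 * (1 - a) + 6 / 25 * (63 / 1000) < 0 := by
  have l2 := log_two_gt_d9
  have l3 := log_two_lt_d9
  have b0 : 0 < a + g := by linarith
  have b1 := log_le_sub_one_of_pos (show 0 < (a + g) / (5 / 4) by positivity)
  rw [log_div b0.ne' (by norm_num)] at b1
  have b2 := log_le_sub_one_of_pos (show (0 : ℝ) < (5 / 4) ^ 3 / 2 by positivity)
  rw [log_div (by positivity) (by norm_num), log_pow] at b2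
  have b3 : 693 / 1000 * (2 * f - f ^ 2) ≤ (2 * f - f ^ 2) * log 2 := by
    rw [mul_comm]
    exact mul_le_mul_of_nonneg_left (by linarith) (by nlinarith)
  have b4 : 2 * log 2 * (1 - a) ≤ 2 * (6932 / 10000) * (1 - a) :=
    mul_le_mul_of_nonneg_right (by linarith) (by linarith)
  have b5 : 0 ≤ (f - 336 / 1000) * (384 / 1000 - f) := mul_nonneg (by linarith) (by linarith)
  push_cast at b2
  nlinarith

lemma numE {a g e f : ℝ} (a0 : 0 < a) (a1 : a ≤ 7 / 8) (e1 : 384 / 1000 * (1 - a) ≤ e)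
    (e2 : e ≤ g) (e3 : f = g + e) (f1 : f ≤ 384 / 1000) :
    log (a + g) - (2 * f - f ^ 2) * log 2 + 2 * log 2 * (1 - a) + 6 / 25 * (63 / 1000) < 0 := by
  have l2 := log_two_gt_d9
  have l3 := log_two_lt_d9
  have b1 := log_le_sub_one_of_pos (show 0 < a + g by linarith)
  have b3 : 693 / 1000 * (2 * f - f ^ 2) ≤ (2 * f - f ^ 2) * log 2 := by
    rw [mul_comm]
    exact mul_le_mul_of_nonneg_left (by linarith) (by nlinarith)
  have b4 : 2 * log 2 * (1 - a) ≤ 2 * (6932 / 10000) * (1 - a) :=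
    mul_le_mul_of_nonneg_right (by linarith) (by linarith)
  have b5 : 0 ≤ (f - 96 / 1000) * (384 / 1000 - f) := mul_nonneg (by linarith) (by linarith)
  nlinarith

/-- one frequent element -/
lemma one (hc : ∀ A ∈ F, ∀ B ∈ F, A ∪ B ∈ F) {A : Finset ℕ} (hA : A ∈ F) (h : A.Nonempty) :
    ∃ y, (∃ B ∈ F, y ∈ B) ∧ 384 * F.card ≤ 1000 * dg F y := by
  obtain ⟨W, h1, h2⟩ := main hc ⟨A, hA⟩ num_all
  have h0 := card_pos.2 ⟨A, hA⟩
  rcases W.eq_empty_or_nonempty with rfl | ⟨y, hy⟩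
  · obtain ⟨y, hy⟩ := h
    have : 0 < dg F y := card_pos.2 ⟨A, mem_filter.2 ⟨hA, hy⟩⟩
    simp only [card_empty, mul_zero, pow_zero] at h1
    exact ⟨y, ⟨A, hA, hy⟩, by omega⟩
  · have := h2 y hy
    obtain ⟨B, hB⟩ := card_pos.1 (show 0 < (F.filter fun A => y ∈ A).card by omega)
    exact ⟨y, ⟨B, mem_filter.1 hB⟩, this⟩

/-- five members, one of them empty -/
lemma five (hc : ∀ A ∈ F, ∀ B ∈ F, A ∪ B ∈ F) (h5 : F.card = 5) :
    ∃ y, (∃ B ∈ F, y ∈ B) ∧ 3 ≤ dg F y := by
  by_contra hn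
  push Not at hn
  have hne : F.Nonempty := card_pos.1 (by omega)
  obtain ⟨T, hT, hm⟩ := exists_max_image F card hne
  have hs : ∀ A ∈ F, A ⊆ T := fun A hA => by
    have := eq_of_subset_of_card_le (subset_union_right (s₁ := A)) (hm _ (hc A hA T hT))
    rw [this]; exact subset_union_left
  have h3 : 2 < ((F.erase T).erase ∅).card := by
    have a1 := pred_card_le_card_erase (s := F.erase T) (a := ∅)
    have a2 := card_erase_of_mem hT
    omega
  have dj : ∀ A ∈ (F.erase T).erase ∅, ∀ B ∈ F, B ≠ T → A ≠ B → ∀ y ∈ A, y ∉ B :=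
    fun A hA B hB b1 b2 y h1 h2 => by
      obtain ⟨a1, a2⟩ := mem_erase.1 (mem_erase.1 hA).2
      exact (hn y ⟨B, hB, h2⟩).not_ge (two_lt_card_iff.2 ⟨A, B, T, mem_filter.2 ⟨a2, h1⟩,
        mem_filter.2 ⟨hB, h2⟩, mem_filter.2 ⟨hT, hs A a2 h1⟩, b2, a1, b1⟩)
  obtain ⟨A, B, C, hA, hB, hC, ab, ac, bc⟩ := two_lt_card_iff.1 h3
  have m := fun X (h : X ∈ (F.erase T).erase ∅) => mem_erase.1 (mem_erase.1 h).2
  obtain ⟨a, ha⟩ := nonempty_iff_ne_empty.2 (mem_erase.1 hA).1
  obtain ⟨b, hb⟩ := nonempty_iff_ne_empty.2 (mem_erase.1 hB).1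
  obtain ⟨c, hc'⟩ := nonempty_iff_ne_empty.2 (mem_erase.1 hC).1
  by_cases e : A ∪ B = T
  · rcases mem_union.1 (e ▸ hs C (m C hC).2 hc') with h | h
    · exact dj C hC A (m A hA).2 (m A hA).1 ac.symm c hc' h
    · exact dj C hC B (m B hB).2 (m B hB).1 bc.symm c hc' h
  · refine dj A hA _ (hc A (m A hA).2 B (m B hB).2) e (fun h => ?_) a ha (mem_union_left _ ha)
    exact dj B hB A (m A hA).2 (m A hA).1 ab.symm b hb (h ▸ mem_union_right _ hb)

lemma core (hc : ∀ A ∈ F, ∀ B ∈ F, A ∪ B ∈ F) (hF : ∀ A ∈ F, A ⊆ range (n + 1))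
    (h2 : ∃ A ∈ F, 2 ≤ A.card) (h3 : ∀ x T, F ≠ {∅, {x}, T}) :
    ∃ y < n, 384 * F.card ≤ 1000 * dg F y := by
  by_contra hn
  push Not at hn
  obtain ⟨A, hA, hA2⟩ := h2
  have hne : F.Nonempty := ⟨A, hA⟩
  have h0 : (0 : ℝ) < F.card := by exact_mod_cast hne.card_pos
  have hlt : ∀ B ∈ pj n F, ∀ y ∈ B, y < n := fun B hB y hy => by
    obtain ⟨C, -, rfl⟩ := mem_image.1 hB
    exact mem_range.1 (mem_inter.1 hy).2
  have cG : ∀ A ∈ pj n F, ∀ B ∈ pj n F, A ∪ B ∈ pj n F := fun A hA B hB => by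
    obtain ⟨C, hC, rfl⟩ := mem_image.1 hA
    obtain ⟨D, hD, rfl⟩ := mem_image.1 hB
    exact mem_image.2 ⟨_, hc C hC D hD, union_inter_distrib_right _ _ _⟩
  have cE : ∀ A ∈ dbl n F, ∀ B ∈ dbl n F, A ∪ B ∈ dbl n F := fun A hA B hB => by
    obtain ⟨a1, a2, a3⟩ := mem_filter.1 hA
    obtain ⟨b1, b2, -⟩ := mem_filter.1 hB
    exact mem_filter.2 ⟨hc A a1 B b1, by simp [a2, b2], by rw [← insert_union]; exact hc _ a3 B b1⟩
  have hA' : (A ∩ range n).Nonempty := by
    rw [nonempty_iff_ne_empty]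
    intro e
    rcases two_cases (hF A hA) with a | a <;> rw [a, e] at hA2 <;> simp at hA2
  have sp := split hF
  have spR : (F.card : ℝ) = (pj n F).card + (dbl n F).card := by exact_mod_cast sp
  have e0 : (0 : ℝ) ≤ (dbl n F).card := Nat.cast_nonneg _
  have rare : ∀ y < n, (dg F y : ℝ) / F.card ≤ 384 / 1000 := fun y hy => by
    have : (1000 : ℝ) * dg F y < 384 * F.card := by exact_mod_cast hn y hy
    rw [div_le_iff₀ h0]
    linarith
  obtain ⟨y, ⟨B, hB, hyB⟩, hy⟩ := one cG (mem_image_of_mem _ hA) hA'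
  have yn := hlt B hB y hyB
  have ds := dg_split hF yn
  by_cases c1 : 8 * (dbl n F).card ≤ F.card
  · have c1' : (8 : ℝ) * (dbl n F).card ≤ F.card := by exact_mod_cast c1
    have hy' : (384 : ℝ) * (pj n F).card ≤ 1000 * dg (pj n F) y := by exact_mod_cast hy
    refine (ineq hc hF hne hn yn).not_gt (numG ?_ ?_ ?_ ?_ (rare y yn))
    · rw [le_div_iff₀ h0]; linarith
    · rw [div_le_one h0]; linarith
    · rw [← mul_div_assoc]; gcongr; linarith
    · gcongr; omega
  by_cases c2 : ∃ D ∈ dbl n F, D.Nonempty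
  · obtain ⟨D, hD, hD'⟩ := c2
    obtain ⟨z, ⟨C, hC, hzC⟩, hz⟩ := one cE hD hD'
    have zn := hlt C (dbl_sub hF hC) z hzC
    have c1' : (F.card : ℝ) < 8 * (dbl n F).card := by exact_mod_cast not_le.1 c1
    have hz' : (384 : ℝ) * (dbl n F).card ≤ 1000 * dg (dbl n F) z := by exact_mod_cast hz
    have g0 : (0 : ℝ) < (pj n F).card := by exact_mod_cast (hne.image _).card_pos
    refine (ineq hc hF hne hn zn).not_gt (numE (e := dg (dbl n F) z / F.card) (by positivity)
      ?_ ?_ ?_ ?_ (rare z zn))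
    · rw [div_le_iff₀ h0]; linarith
    · rw [one_sub_div h0.ne', ← mul_div_assoc]; gcongr; linarith
    · gcongr
      exact card_le_card (filter_subset_filter _ (dbl_sub hF))
    · rw [dg_split hF zn]; push_cast; ring
  push Not at c2
  have hE : dbl n F = {∅} := eq_singleton_iff_nonempty_unique_mem.2 ⟨card_pos.1 (by omega), c2⟩
  obtain ⟨m1, -, m2⟩ := mem_filter.1 (show ∅ ∈ dbl n F from hE ▸ mem_singleton_self _)
  have r := hn y yn
  rw [hE, card_singleton] at sp c1
  by_cases c5 : (pj n F).card = 5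
  · obtain ⟨z, ⟨C, hC, hzC⟩, hz⟩ := five cG c5
    have zn := hlt C hC z hzC
    have := hn z zn
    have := dg_split hF zn
    omega
  have hsub : ({∅, {n}, A} : Finset (Finset ℕ)) ⊆ F := by
    simp only [insert_subset_iff, singleton_subset_iff]
    exact ⟨m1, m2, hA⟩
  have hc3 : ({∅, {n}, A} : Finset (Finset ℕ)).card = 3 :=
    card_eq_three.2 ⟨_, _, _, (singleton_ne_empty n).symm, fun e => by simp [← e] at hA2,
      fun e => by simp [← e] at hA2, rfl⟩
  have h4 : 3 < F.card := hc3 ▸ card_lt_card (hsub.ssubset_of_ne (h3 n A).symm)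
  have h5 : F.card = 4 ∨ F.card = 5 ∨ F.card = 7 := by omega
  omega

lemma other (hc : ∀ A ∈ F, ∀ B ∈ F, A ∪ B ∈ F) (h2 : ∃ A ∈ F, 2 ≤ A.card)
    (h3 : ∀ x T, F ≠ {∅, {x}, T}) (x : ℕ) : ∃ y, y ≠ x ∧ 384 * F.card ≤ 1000 * dg F y := by
  obtain ⟨n, hn⟩ := (insert x (F.biUnion id)).exists_nat_subset_range
  let σ := Equiv.swap x n
  let τ : Finset ℕ → Finset ℕ := fun A => A.image σ
  have ττ : ∀ A, τ (τ A) = A := fun A => by
    simp only [τ, σ, image_image, Function.comp_def, Equiv.swap_apply_self, image_id']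
  have τi : Function.Injective τ := Function.LeftInverse.injective ττ
  have xn : x < n := mem_range.1 (hn (mem_insert_self _ _))
  obtain ⟨y, hy, h⟩ := core (F := F.image τ) (n := n) (fun A hA B hB => by
      obtain ⟨C, hC, rfl⟩ := mem_image.1 hA
      obtain ⟨D, hD, rfl⟩ := mem_image.1 hB
      exact mem_image.2 ⟨_, hc C hC D hD, image_union _ _⟩) (fun A hA a ha => by
      obtain ⟨C, hC, rfl⟩ := mem_image.1 hA
      obtain ⟨b, hb, rfl⟩ := mem_image.1 ha
      have := mem_range.1 (hn (mem_insert_of_mem (mem_biUnion.2 ⟨C, hC, hb⟩)))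
      rw [mem_range, Equiv.swap_apply_def]
      split_ifs <;> omega) (by
      obtain ⟨A, hA, h⟩ := h2
      exact ⟨τ A, mem_image_of_mem _ hA, by rwa [card_image_of_injective _ σ.injective]⟩)
    (fun z T e => h3 (σ z) (τ T) (by
      have := congrArg (image τ) e
      rw [image_image, show τ ∘ τ = id from funext ττ, image_id] at this
      simpa [τ] using this))
  refine ⟨σ y, fun e => ?_, ?_⟩
  · have := congrArg σ e
    simp only [σ, Equiv.swap_apply_self, Equiv.swap_apply_left] at this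
    omega
  · rw [card_image_of_injective _ τi, dg, filter_image, card_image_of_injective _ τi] at h
    refine h.trans (le_of_eq ?_)
    rw [dg]
    congr 2
    refine filter_congr fun A _ => ?_
    simp only [τ, mem_image]
    symm
    exact ⟨fun e => ⟨_, e, Equiv.swap_apply_self _ _ _⟩, fun ⟨a, ha, e⟩ => by
      rw [← e]; simpa [σ] using ha⟩

end Pool.Agent.MP_caa27d_co.H
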