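import Pool.Agent.Mg.Fcaa27d.G9b1e37

/-! The four entropy tests when one coordinate is never revealed. -/

set_option autoImplicit false

open Finset Real

namespace Pool.Agent.MP_caa27d_co.H

open Pool.Agent.MP_caa27d_co.E

variable {F R S : Finset (Finset ℕ)} {A B D T : Finset ℕ} {j n : ℕ}

lemma E0' : ∑ j ∈ range n, ∑ A ∈ F, binEntropy (P F (range j) j A) =
    F.card * log F.card - L F (range n) := by
  simp only [← step, ← range_add_one]
  rw [sum_range_sub' fun j => L F (range j), range_zero, L_empty]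

lemma I0b' : ∑ j ∈ range n, (1 - ind j B) * ∑ A ∈ F,
    binEntropy (P F (range j ∪ range n \ B) j A) = L F (range n \ B) - L F (range n) := by
  have := sum_range_sub' (fun j => L F (range j ∪ range n \ B)) n
  simp only [range_zero, empty_union, union_eq_left.2 sdiff_subset] at this
  rw [← this]
  refine sum_congr rfl fun j hj => ?_
  by_cases e : j ∈ B
  · simp [ind, e, range_add_one, insert_union, step]
  · have : j ∈ range j ∪ range n \ B := mem_union_right _ (mem_sdiff.2 ⟨hj, e⟩)
    simp [ind, e, range_add_one, insert_union, insert_eq_of_mem this]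

lemma step_ref (hj : j < n) (h : ∃ C ∈ R, C ∩ range n = D ∩ range n) :
    (log ((cl R (range j) D).card : ℝ) - log ((cl R (range (j + 1)) D).card : ℝ) =
      -log (P R (range j) j D) * ind j D + -log (1 - P R (range j) j D) * (1 - ind j D)) ∧
    (j ∈ D → P R (range j) j D < 1) ∧ (j ∉ D → 0 < P R (range j) j D) := by
  obtain ⟨C, hC, e⟩ := h
  have e1 : C ∩ range j = D ∩ range j := inter_mono (range_mono hj.le) e
  have e2 : C ∩ range (j + 1) = D ∩ range (j + 1) := inter_mono (range_mono hj) e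
  have e3 : j ∈ C ↔ j ∈ D := by
    have := Finset.ext_iff.1 e j
    simpa [hj] using this
  have e4 : ind j D = ind j C := by simp only [ind, e3]
  rw [← cl_congr e1, ← cl_congr e2, ← P_congr e1, e4, range_add_one, ← e3]
  exact ⟨step_pt hC, p0_lt_one (self_mem hC), p0_pos (self_mem hC)⟩

lemma T1j' (hj : j < n) (hR : ∀ A ∈ F, ∀ B ∈ F, ∃ C ∈ R, C ∩ range n = (A ∪ B) ∩ range n) :
    ∑ B ∈ F, ∑ A ∈ F, binEntropy (P F (range j \ B) j A * P F (range j) j B) ≤
      ∑ B ∈ F, ∑ A ∈ F, (log ((cl R (range j) (A ∪ B)).card : ℝ) -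
        log ((cl R (range (j + 1)) (A ∪ B)).card : ℝ)) := by
  set p := fun A B => P F (range j \ B) j A * P F (range j) j B with hp
  set q := fun A B => P R (range j) j (A ∪ B) with hq
  have p1 : ∀ B A D, D ∩ (range j \ B) = A ∩ (range j \ B) → p D B = p A B ∧ q D B = q A B :=
    fun B A D e => ⟨by simp only [hp, P_congr e], P_congr (un_congr1 e)⟩
  have p2 : ∀ A B D, D ∩ range j = B ∩ range j → p A D = p A B ∧ q A D = q A B :=
    fun A B D e => ⟨by simp only [hp, P_congr e, sd_congr e], P_congr (un_congr2 e)⟩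
  have e1 := martAB (F := F) (j := j) (fun A B => -log (p A B) + log (1 - p A B) -
      (q A B / p A B - (1 - q A B) / (1 - p A B)))
    (fun B A D e => by rw [(p1 B A D e).1, (p1 B A D e).2])
    fun A B D e => by rw [(p2 A B D e).1, (p2 A B D e).2]
  rw [← sub_nonneg, ← sub_eq_zero.2 e1, ← sum_sub_distrib, ← sum_sub_distrib]
  refine sum_le_sum fun B hB => ?_
  rw [← sum_sub_distrib, ← sum_sub_distrib]
  refine sum_le_sum fun A hA => ?_
  obtain ⟨s1, s2, s3⟩ := step_ref hj (hR A hA B hB)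
  rw [s1]
  change _ - _ * p A B ≤ -log (q A B) * _ + -log (1 - q A B) * _ - binEntropy (p A B)
  have a1 := mul_div_le' (p := p A B) (q := q A B) P_nonneg
  have a2 := mul_div_le' (p := 1 - p A B) (q := 1 - q A B) (sub_nonneg.2 P_le_one)
  simp only [binEntropy, log_inv]
  by_cases e : j ∈ A ∪ B
  · have b1 : 0 < 1 - q A B := sub_pos.2 (s2 e)
    have b2 : 0 < 1 - p A B := by
      rcases mem_union.1 e with e | e
      · exact sub_pos.2 (mul_lt_one_of_nonneg_of_lt_one_left P_nonneg (p0_lt_one (self_mem hA) e)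
          P_le_one)
      · exact sub_pos.2 (mul_lt_one_of_nonneg_of_lt_one_right P_le_one P_nonneg
          (p0_lt_one (self_mem hB) e))
    have b3 := log_le_sub_one_of_pos (div_pos b1 b2)
    rw [log_div b1.ne' b2.ne'] at b3
    have b4 : ind j A * ind j B = 0 := by
      rcases mem_union.1 e with e | e <;> simp [ind, e]
    rw [b4, show ind j (A ∪ B) = 0 from if_pos e]
    nlinarith
  · have eA : j ∉ A := fun x => e (mem_union_left _ x)
    have eB : j ∉ B := fun x => e (mem_union_right _ x)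
    have b1 : 0 < q A B := s3 e
    have b2 : 0 < p A B := mul_pos (p0_pos (self_mem hA) eA) (p0_pos (self_mem hB) eB)
    have b3 := log_le_sub_one_of_pos (div_pos b1 b2)
    rw [log_div b1.ne' b2.ne'] at b3
    rw [show ind j (A ∪ B) = 1 from if_neg e, show ind j A = 1 from if_neg eA,
      show ind j B = 1 from if_neg eB]
    nlinarith

lemma T1' (hR : ∀ A ∈ F, ∀ B ∈ F, ∃ C ∈ R, C ∩ range n = (A ∪ B) ∩ range n) :
    ∑ j ∈ range n, ∑ B ∈ F, ∑ A ∈ F, binEntropy (P F (range j \ B) j A * P F (range j) j B) ≤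
      ∑ B ∈ F, ∑ A ∈ F, (log (R.card : ℝ) - log ((cl R (range n) (A ∪ B)).card : ℝ)) := by
  refine (sum_le_sum fun j hj => T1j' (mem_range.1 hj) hR).trans_eq ?_
  rw [sum_comm]
  refine sum_congr rfl fun B hB => ?_
  rw [sum_comm]
  refine sum_congr rfl fun A hA => ?_
  rw [sum_range_sub' fun j => log ((cl R (range j) (A ∪ B)).card : ℝ)]
  simp [cl]

lemma coup' (f : ℕ → ℝ → ℝ) (hf : ∀ j, Cp (f j)) (d : ℕ) :
    ∀ (j : ℕ) (S1 S2 S3 : Finset (Finset ℕ)), j + d ≤ n →
    S1.Nonempty → S2.Nonempty → (∀ A ∈ S1, ∀ B ∈ S2, (A ∪ B) ∩ range n ∈ S3) →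
      U f S1 j d + U f S2 j d ≤ 2 * log (S3.card : ℝ) := by
  induction d with
  | zero =>
    intro j S1 S2 S3 _ _ _ _
    simpa [U] using log_natCast_nonneg S3.card
  | succ d ih =>
    intro j S1 S2 S3 hj n1 n2 hc
    have jn : j ∈ range n := mem_range.2 (by omega)
    obtain ⟨q, q0, q1, q2, q3, q4⟩ := hf j (p0 S1 j) (p0 S2 j) p0_nonneg p0_le_one p0_nonneg
      p0_le_one
    have x1 := p0_le_one (S := S1) (j := j)
    have y1 := p0_le_one (S := S2) (j := j)
    have key : ∀ (r : ℝ) (R1 R2 R3 : Finset (Finset ℕ)), 0 ≤ r → (0 < r → R1.Nonempty) →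
        (0 < r → R2.Nonempty) → (∀ A ∈ R1, ∀ B ∈ R2, (A ∪ B) ∩ range n ∈ R3) →
        r * (U f R1 (j + 1) d + U f R2 (j + 1) d) ≤ r * (2 * log (R3.card : ℝ)) := by
      intro r R1 R2 R3 r0 a b c
      rcases r0.eq_or_lt with rfl | hr
      · simp
      · exact mul_le_mul_of_nonneg_left (ih _ _ _ _ (by omega) (a hr) (b hr) c) r0
    have c00 : ∀ A ∈ S1.filter fun D => j ∉ D, ∀ B ∈ S2.filter fun D => j ∉ D,
        (A ∪ B) ∩ range n ∈ S3.filter fun D => j ∉ D := by
      simp only [mem_filter, mem_inter, mem_union]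
      exact fun A hA B hB => ⟨hc A hA.1 B hB.1, by tauto⟩
    have k00 := key q _ _ _ q0 (fun e => ne0 (by linarith)) (fun e => ne0 (by linarith)) c00
    have k01 := key (p0 S1 j - q) (S1.filter fun D => j ∉ D) (S2.filter fun D => j ∈ D)
      (S3.filter fun D => j ∈ D) (by linarith) (fun e => ne0 (by linarith))
      (fun e => ne1 n2 (by linarith)) (by
        simp only [mem_filter, mem_inter, mem_union]
        exact fun A hA B hB => ⟨hc A hA.1 B hB.1, by tauto⟩)
    have k10 := key (p0 S2 j - q) (S1.filter fun D => j ∈ D) (S2.filter fun D => j ∉ D)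
      (S3.filter fun D => j ∈ D) (by linarith) (fun e => ne1 n1 (by linarith))
      (fun e => ne0 (by linarith)) (by
        simp only [mem_filter, mem_inter, mem_union]
        exact fun A hA B hB => ⟨hc A hA.1 B hB.1, by tauto⟩)
    have k11 := key (1 - p0 S1 j - p0 S2 j + q) (S1.filter fun D => j ∈ D)
      (S2.filter fun D => j ∈ D) (S3.filter fun D => j ∈ D) (by linarith)
      (fun e => ne1 n1 (by linarith)) (fun e => ne1 n2 (by linarith)) (by
        simp only [mem_filter, mem_inter, mem_union]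
        exact fun A hA B hB => ⟨hc A hA.1 B hB.1, by tauto⟩)
    have hs : ((S3.filter fun D => j ∉ D).card : ℝ) + (S3.filter fun D => j ∈ D).card =
        S3.card := by
      rw [add_comm]
      exact_mod_cast card_filter_add_card_filter_not (s := S3) (fun D => j ∈ D)
    obtain ⟨A, hA⟩ := id n1
    obtain ⟨B, hB⟩ := id n2
    have hl := logsum (a := (S3.filter fun D => j ∉ D).card)
      (b := (S3.filter fun D => j ∈ D).card)
      q0 (q2.trans x1) (Nat.cast_nonneg _) (Nat.cast_nonneg _)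
      (by rw [hs]; exact_mod_cast card_pos.2 ⟨_, hc A hA B hB⟩) (fun e => by
        obtain ⟨A, hA⟩ := ne0 (S := S1) (j := j) (by linarith)
        obtain ⟨B, hB⟩ := ne0 (S := S2) (j := j) (by linarith)
        exact_mod_cast card_pos.2 ⟨_, c00 A hA B hB⟩) (fun e => by
        by_cases e1 : p0 S1 j = 1
        · obtain ⟨B, hB⟩ := ne1 (j := j) n2 (by linarith)
          exact Nat.cast_pos.2 <| card_pos.2 ⟨_, mem_filter.2 ⟨hc A hA B (mem_filter.1 hB).1,
            mem_inter.2 ⟨mem_union_right _ (mem_filter.1 hB).2, jn⟩⟩⟩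
        · obtain ⟨A, hA⟩ := ne1 n1 e1
          exact Nat.cast_pos.2 <| card_pos.2 ⟨_, mem_filter.2 ⟨hc A (mem_filter.1 hA).1 B hB,
            mem_inter.2 ⟨mem_union_left _ (mem_filter.1 hA).2, jn⟩⟩⟩)
    rw [hs] at hl
    rw [U_succ f d n1, U_succ f d n2]
    linarith

/-- traces on `range n` -/
def pj (n : ℕ) (S : Finset (Finset ℕ)) : Finset (Finset ℕ) := S.image fun D => D ∩ range n

lemma T2' (hc : ∀ A ∈ F, ∀ B ∈ F, A ∪ B ∈ F) (κ : ℕ → ℝ → ℝ) :
    ∑ j ∈ range n, (1 - ind j B) * ∑ A ∈ F,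
      w (κ j (P F (range j \ B) j A)) (P F (range j ∪ range n \ B) j A) ≤
      ∑ A ∈ F, log ((pj n (cl F (range n \ B) A)).card : ℝ) := by
  simp only [mul_sum]
  rw [sum_comm, tower (T := range n \ B)]
  refine sum_le_sum fun A hA => ?_
  have hS : (cl F (range n \ B) A).Nonempty := ⟨A, self_mem hA⟩
  have h1 := coup' (n := n)
    (fun j => if j ∈ B then w (κ j (P F (range j \ B) j A)) else fun _ => 0)
    (fun j => by split_ifs; exacts [cp_w _, cp_zero]) n 0 _ _ (pj n (cl F (range n \ B) A))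
    (by omega) hS hS
    fun D hD E hE => mem_image_of_mem _ (mem_filter.2
      ⟨hc D (mem_filter.1 hD).1 E (mem_filter.1 hE).1, by
      rw [union_inter_distrib_right, (mem_filter.1 hD).2, (mem_filter.1 hE).2, union_self]⟩)
  refine le_trans (le_of_eq ?_) (le_of_mul_le_mul_left ((two_mul _).trans_le h1) two_pos)
  unfold U
  congr 1
  refine sum_congr rfl fun D hD => sum_congr rfl fun i hi => ?_
  have e := (mem_filter.1 hD).2
  have e1 : P F (range i \ B) i D = P F (range i \ B) i A :=
    P_congr (inter_mono (sdiff_subset_sdiff (range_mono (mem_range.1 hi).le) subset_rfl) e)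
  have e2 : cl F (range i ∪ range n \ B) D = cl (cl F (range n \ B) A) (range i) D := by
    ext E
    simp only [cl, mem_filter, ← e, and_assoc]
    refine and_congr_right fun _ => ⟨fun x => ⟨inter_mono subset_union_right x,
      inter_mono subset_union_left x⟩, fun x => ?_⟩
    rw [inter_union_distrib_left, inter_union_distrib_left, x.1, x.2]
  simp only [zero_add, Nat.Ico_zero_eq_range, e1]
  by_cases hB : i ∈ B
  · simp [ind, hB, P, e2]
  · simp [ind, hB]

lemma two_cases (hA : A ⊆ range (n + 1)) : A = A ∩ range n ∨ A = insert n (A ∩ range n) := by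
  by_cases e : n ∈ A
  · refine Or.inr (Finset.ext fun a => ?_)
    have := fun h => mem_range.1 (@hA a h)
    simp only [mem_insert, mem_inter, mem_range]
    constructor
    · intro h
      have := this h
      rcases Nat.lt_succ_iff_lt_or_eq.1 this with h1 | h1 <;> tauto
    · rintro (rfl | h)
      exacts [e, h.1]
  · refine Or.inl (inter_eq_left.2 fun a h => mem_range.2 ?_).symm
    have := mem_range.1 (hA h)
    exact lt_of_le_of_ne (by omega) fun x => e (x ▸ h)

lemma L_pj (hS : ∀ A ∈ S, A ⊆ range (n + 1)) :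
    L S (range n) = 2 * log 2 * (S.card - (pj n S).card) := by
  have h1 : ∑ A ∈ S, (1 : ℝ) / (cl S (range n) A).card = (pj n S).card := by
    rw [pj, card_eq_sum_ones (S.image _), ← sum_fiberwise_of_maps_to
      (g := fun D => D ∩ range n) (fun A hA => mem_image_of_mem _ hA)]
    push_cast
    refine sum_congr rfl fun C hC => ?_
    obtain ⟨A, hA, rfl⟩ := mem_image.1 hC
    have h0 : ((cl S (range n) A).card : ℝ) ≠ 0 := by
      exact_mod_cast (card_pos.2 ⟨A, self_mem hA⟩).ne'
    rw [sum_congr rfl fun D hD => by rw [cl_congr (mem_filter.1 hD).2], sum_const, nsmul_eq_mul]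
    change ((cl S (range n) A).card : ℝ) * _ = _
    field_simp
  rw [← h1, card_eq_sum_ones S]
  push_cast
  rw [← sum_sub_distrib, mul_sum]
  refine sum_congr rfl fun A hA => ?_
  have a1 : 0 < (cl S (range n) A).card := card_pos.2 ⟨A, self_mem hA⟩
  have a2 : (cl S (range n) A).card ≤ 2 := by
    refine (card_le_card (t := {A ∩ range n, insert n (A ∩ range n)}) fun D hD => ?_).trans
      card_le_two
    obtain ⟨h, e⟩ := mem_filter.1 hD
    rw [← e, mem_insert, mem_singleton]
    exact two_cases (hS D h)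
  interval_cases (cl S (range n) A).card
  · simp
  · push_cast; ring

lemma log_pj (hF : ∀ A ∈ F, A ⊆ range (n + 1)) (hT : T ⊆ range n) :
    ∑ A ∈ F, log ((pj n (cl F T A)).card : ℝ) ≤ L F T - L F (range n) + F.card * (63 / 1000) := by
  rw [L.eq_1 F (range n), tower (T := T) fun A => log ((cl F (range n) A).card : ℝ), L,
    ← sum_sub_distrib, ← nsmul_eq_mul, ← sum_const, ← sum_add_distrib]
  refine sum_le_sum fun A hA => ?_
  have h1 := L_pj (S := cl F T A) (n := n) fun D hD => hF D (mem_filter.1 hD).1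
  have h2 : ∑ D ∈ cl F T A, log ((cl F (range n) D).card : ℝ) = L (cl F T A) (range n) := by
    refine sum_congr rfl fun D hD => ?_
    congr 2
    congr 1
    ext C
    simp only [cl, mem_filter, and_assoc]
    exact and_congr_right fun _ => ⟨fun e => ⟨(inter_mono hT e).trans (mem_filter.1 hD).2, e⟩,
      fun e => e.2⟩
  have s0 : (0 : ℝ) < (cl F T A).card := by exact_mod_cast card_pos.2 ⟨A, self_mem hA⟩
  have p0 : (0 : ℝ) < (pj n (cl F T A)).card := by
    exact_mod_cast card_pos.2 ⟨_, mem_image_of_mem _ (self_mem hA)⟩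
  rw [h2, h1]
  generalize ((cl F T A).card : ℝ) = s at *
  generalize ((pj n (cl F T A)).card : ℝ) = p at *
  have l2 := log_two_gt_d9
  have l3 := log_two_lt_d9
  have a1 := log_le_sub_one_of_pos (show 0 < p / s * (2 * log 2) by positivity)
  rw [log_mul (by positivity) (by positivity), log_div p0.ne' s0.ne'] at a1
  have a2 : 2 * (386 / 1000) / (386 / 1000 + 2) ≤ log (1 + 386 / 1000) :=
    le_log_one_add_of_nonneg (by norm_num)
  have a3 := log_le_log (by norm_num) (show (1 + 386 / 1000 : ℝ) ≤ 2 * log 2 by linarith)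
  have a4 : 2 * log 2 * (s - p) / s = 2 * log 2 - p / s * (2 * log 2) := by field_simp
  rw [a4]
  norm_num at a2 a3
  linarith

lemma total' (hc : ∀ A ∈ F, ∀ B ∈ F, A ∪ B ∈ F) (hF : ∀ A ∈ F, A ⊆ range (n + 1))
    (hR : ∀ A ∈ F, ∀ B ∈ F, ∃ C ∈ R, C ∩ range n = (A ∪ B) ∩ range n) (κ : ℕ → ℝ → ℝ → ℝ) :
    ∑ j ∈ range n, cost F n j (κ j) ≤
      ∑ B ∈ F, ∑ A ∈ F, (log (R.card : ℝ) - log ((cl R (range n) (A ∪ B)).card : ℝ)) -
        F.card * (F.card * log F.card) + F.card * L F (range n) +
        F.card * (F.card * (6 / 25 * (63 / 1000))) := by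
  have h1 := T1' hR
  have h2 := sum_congr rfl fun B (_ : B ∈ F) => I0a (F := F) (B := B) (n := n)
  have h3 := sum_congr rfl fun B (_ : B ∈ F) => I0b' (F := F) (B := B) (n := n)
  have h4 := sum_le_sum fun B (_ : B ∈ F) =>
    (T2' (B := B) (n := n) hc fun j => κ j (P F (range j) j B)).trans (log_pj hF sdiff_subset)
  have h5 := sum_congr rfl fun B (_ : B ∈ F) => E0' (F := F) (n := n)
  rw [sum_comm] at h2 h3 h4 h5
  simp only [sum_sub_distrib, sum_add_distrib, sum_const, nsmul_eq_mul] at h2 h3 h4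
  rw [sum_const, nsmul_eq_mul] at h5
  generalize ∑ B ∈ F, ∑ A ∈ F, (log (R.card : ℝ) - log ((cl R (range n) (A ∪ B)).card : ℝ)) = X
    at h1 ⊢
  simp only [cost, sum_sub_distrib, sum_add_distrib, ← mul_sum]
  linarith

lemma cost_nonneg (h : 1000 * (F.filter fun A => j ∈ A).card < 384 * F.card) :
    ∃ κ, 0 ≤ cost F n j κ := by
  obtain ⟨κ, k, hL, h2⟩ := num_all (F := F) (P F (range j) j) (fun _ => IP) (by
    have h1 := mart (F := F) (T := range j) (j := j) (fun _ => 1) fun _ _ _ => rfl
    have h2 := card_filter_add_card_filter_not (s := F) fun D => j ∈ D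
    have h3 : 77 * F.card ≤ 125 * (F.filter fun D => j ∉ D).card := by omega
    simp only [one_mul, sum_ind] at h1
    have : (77 : ℝ) * F.card ≤ 125 * (F.filter fun D => j ∉ D).card := by exact_mod_cast h3
    linarith)
  have h3 : 0 ≤ ∑ A ∈ F, binEntropy (P F (range j) j A) :=
    sum_nonneg fun A _ => binEntropy_nonneg P_nonneg P_le_one
  exact ⟨κ, le_trans (by positivity) (h2.trans (cost_ge hL))⟩

end Pool.Agent.MP_caa27d_co.H
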